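import Pool.Agent.H115G.Up
import Pool.Agent.H115G.Low

/-!
# Simultaneous generation of complete flags over arbitrary fields

For every field `K` and every `m ≥ 1`, `μ_K(m, d) = μ(m, d)` for all large `d`.
-/

set_option autoImplicit false

namespace Pool.Agent.Results.MP_7b57dc_co.AllFields

open Pool.Agent.H115G

/-- A complete flag `{0} = U_0 ⊂ U_1 ⊂ ... ⊂ U_d = K ^ d` with `dim U_i = i`. -/
structure IsCompleteFlag (K : Type*) [Field K] (d : ℕ)
    (U : Fin (d + 1) → Submodule K (Fin d → K)) : Prop where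
  bot : U 0 = ⊥
  top : U (Fin.last d) = ⊤
  strictMono : StrictMono U
  finrank_eq : ∀ i, Module.finrank K (U i) = (i : ℕ)

/-- The set `S` generates the flag: every `U_i` is spanned by some subset of `S`. -/
def Generates {K : Type*} [Field K] {d : ℕ} (S : Set (Fin d → K))
    (U : Fin (d + 1) → Submodule K (Fin d → K)) : Prop :=
  ∀ i, ∃ T ⊆ S, Submodule.span K T = U i

/-- `μ_K(m, d)`: the least `n` such that every `m`-tuple of complete flags in `K ^ d` is
simultaneously generated by some set of at most `n` vectors. -/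
noncomputable def muField (K : Type*) [Field K] (m d : ℕ) : ℕ :=
  sInf {n | ∀ U : Fin m → Fin (d + 1) → Submodule K (Fin d → K),
    (∀ j, IsCompleteFlag K d (U j)) →
      ∃ S : Finset (Fin d → K), S.card ≤ n ∧ ∀ j, Generates (S : Set (Fin d → K)) (U j)}

/-- The value `μ(m, d)`. -/
noncomputable def mu (m d : ℕ) : ℚ :=
  if m = 1 ∨ d = 1 then d
  else if Even m then (m : ℚ) * d / 2
  else (m : ℚ) * d / 2 + (⌊(2 * d / 3 : ℚ)⌋ : ℚ) - d / 2

section

variable {K : Type*} [Field K] {d : ℕ}

theorem exists_vflag {U : Fin (d + 1) → Submodule K (Fin d → K)} (hU : IsCompleteFlag K d U) :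
    ∃ U' : ℕ → Submodule K (Fin d → K), VFlag d U' ∧ ∀ i : Fin (d + 1), U' i = U i := by
  classical
  let U' : ℕ → Submodule K (Fin d → K) := fun i => if h : i < d + 1 then U ⟨i, h⟩ else ⊤
  have hU' : ∀ i (h : i < d + 1), U' i = U ⟨i, h⟩ := fun i h => dif_pos h
  have hlt : ∀ i (h : i < d), U' i < U' (i + 1) := by
    intro i h
    rw [hU' i (by omega), hU' (i + 1) (by omega)]
    exact hU.strictMono (Fin.mk_lt_mk.2 (by omega))
  refine ⟨U', ⟨?_, ?_, ?_, ?_, ?_⟩, fun i => hU' i i.2⟩
  · rw [hU' 0 (by omega)]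
    exact hU.bot
  · rw [hU' d (by omega)]
    exact hU.top
  · intro i hi
    exact (hlt i hi).le
  · intro i hi
    exact Set.exists_of_ssubset (hlt i hi)
  · intro i hi v hv w hw hwn
    have h1 : U' i ⊔ Submodule.span K {w} = U' (i + 1) := by
      apply Submodule.eq_of_le_of_finrank_le
      · exact sup_le (hlt i hi).le ((Submodule.span_singleton_le_iff_mem _ _).2 hw)
      · have h2 : Module.finrank K (U' (i + 1)) = i + 1 := by
          rw [hU' (i + 1) (by omega)]
          exact hU.finrank_eq ⟨i + 1, by omega⟩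
        have h3 : Module.finrank K (U' i) = i := by
          rw [hU' i (by omega)]
          exact hU.finrank_eq ⟨i, by omega⟩
        have h4 : U' i < U' i ⊔ Submodule.span K {w} := by
          apply lt_of_le_of_ne le_sup_left
          intro h
          apply hwn
          rw [h]
          exact Submodule.mem_sup_right (Submodule.mem_span_singleton_self w)
        have h5 := Submodule.finrank_lt_finrank_of_lt h4
        omega
    rw [← h1] at hv
    obtain ⟨u, hu, z, hz, huz⟩ := Submodule.mem_sup.1 hv
    obtain ⟨c, rfl⟩ := Submodule.mem_span_singleton.1 hz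
    refine ⟨c, ?_⟩
    rw [← huz, add_sub_cancel_right]
    exact hu

theorem generates_of_cov {U : Fin (d + 1) → Submodule K (Fin d → K)}
    {U' : ℕ → Submodule K (Fin d → K)} (h : VFlag d U') (hU' : ∀ i : Fin (d + 1), U' i = U i)
    {S : Finset (Fin d → K)} (hS : CovFlag d U' S) : Generates (S : Set (Fin d → K)) U := by
  intro i
  refine ⟨{x | x ∈ S ∧ x ∈ U' i}, fun x hx => hx.1, ?_⟩
  rw [span_eq h hS i (by omega), hU']

theorem levels_of_generates {U : Fin (d + 1) → Submodule K (Fin d → K)} (hU : StrictMono U)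
    {S : Finset (Fin d → K)} (hS : Generates (S : Set (Fin d → K)) U) (i : Fin d) :
    ∃ v ∈ S, v ∈ U i.succ ∧ v ∉ U i.castSucc := by
  by_contra hcon
  push Not at hcon
  obtain ⟨T, hT, hTU⟩ := hS i.succ
  have h1 : U i.succ ≤ U i.castSucc := by
    rw [← hTU, Submodule.span_le]
    intro v hv
    apply hcon v (hT hv)
    rw [← hTU]
    exact Submodule.subset_span hv
  exact absurd h1 (not_le_of_gt (hU (Fin.castSucc_lt_succ (i := i))))

/-- a strictly increasing chain of length `d + 1` in `K ^ d` is a complete flag -/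
theorem isCompleteFlag_of_strictMono {U : Fin (d + 1) → Submodule K (Fin d → K)}
    (hU : StrictMono U) : IsCompleteFlag K d U := by
  have hfr : ∀ i, Module.finrank K (U i) = (i : ℕ) := by
    have hlow : ∀ n (hn : n < d + 1), n ≤ Module.finrank K (U ⟨n, hn⟩) := by
      intro n
      induction n with
      | zero => intro _; omega
      | succ n ih =>
        intro hn
        have h1 := ih (by omega)
        have h2 := Submodule.finrank_lt_finrank_of_lt
          (hU (Fin.mk_lt_mk.2 (by omega) : (⟨n, by omega⟩ : Fin (d + 1)) < ⟨n + 1, hn⟩))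
        omega
    have hup : ∀ n (hn : n ≤ d), Module.finrank K (U ⟨d - n, by omega⟩) + n ≤ d := by
      intro n
      induction n with
      | zero =>
        intro _
        have := Submodule.finrank_le (U ⟨d - 0, by omega⟩)
        rw [Module.finrank_fin_fun] at this
        omega
      | succ n ih =>
        intro hn
        have h1 := ih (by omega)
        have h2 := Submodule.finrank_lt_finrank_of_lt
          (hU (Fin.mk_lt_mk.2 (by omega) :
            (⟨d - (n + 1), by omega⟩ : Fin (d + 1)) < ⟨d - n, by omega⟩))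
        omega
    rintro ⟨i, hi⟩
    have h1 := hlow i hi
    have h2 := hup (d - i) (by omega)
    have e4 : (⟨d - (d - i), by omega⟩ : Fin (d + 1)) = ⟨i, hi⟩ := Fin.ext (by
      show d - (d - i) = i
      omega)
    rw [e4] at h2
    show Module.finrank K (U ⟨i, hi⟩) = i
    omega
  refine ⟨?_, ?_, hU, hfr⟩
  · have := hfr 0
    rw [Fin.val_zero] at this
    exact Submodule.finrank_eq_zero.1 this
  · have := hfr (Fin.last d)
    rw [Fin.val_last] at this
    apply Submodule.eq_top_of_finrank_eq
    rw [this, Module.finrank_fin_fun]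

end

/-- the value as a natural number -/
def muN (m d : ℕ) : ℕ := if m = 1 then d else if Even m then m / 2 * d else
  (m - 1) / 2 * d + 2 * d / 3

theorem muN_eq {m d : ℕ} (hm : 1 ≤ m) (hd : 2 ≤ d) : (muN m d : ℚ) = mu m d := by
  unfold muN mu
  by_cases h1 : m = 1
  · rw [if_pos h1, if_pos (Or.inl h1)]
  have hmd : ¬ (m = 1 ∨ d = 1) := by omega
  rw [if_neg h1, if_neg hmd]
  by_cases hev : Even m
  · rw [if_pos hev, if_pos hev]
    obtain ⟨k, hk⟩ := hev
    have : m / 2 = k := by omega
    rw [this, hk]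
    push_cast
    ring
  · rw [if_neg hev, if_neg hev]
    rw [Nat.not_even_iff_odd] at hev
    obtain ⟨k, hk⟩ := hev
    obtain ⟨n, hn⟩ : ∃ n, n = 2 * d / 3 := ⟨_, rfl⟩
    have h2 : (m - 1) / 2 = k := by omega
    have h3 : (⌊(2 * d / 3 : ℚ)⌋ : ℤ) = (n : ℤ) := by
      rw [Int.floor_eq_iff]
      have h4 : 3 * n ≤ 2 * d := by omega
      have h5 : 2 * d < 3 * n + 3 := by omega
      have h4' : (3 : ℚ) * n ≤ 2 * d := by exact_mod_cast h4
      have h5' : (2 : ℚ) * d < 3 * n + 3 := by exact_mod_cast h5
      constructor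
      · rw [le_div_iff₀ (by norm_num)]
        push_cast
        linarith
      · rw [div_lt_iff₀ (by norm_num)]
        push_cast
        linarith
    rw [h3, h2, ← hn, hk]
    push_cast
    ring

/-- **Answer to Q1 (positive).** -/
theorem result : ∀ (K : Type*) [Field K] (m : ℕ), 1 ≤ m →
    ∃ d₀ : ℕ, ∀ d : ℕ, 1 ≤ d → d₀ ≤ d → (muField K m d : ℚ) = mu m d := by
  classical
  intro K _ m hm
  refine ⟨3 * m + 6, fun d _ hd => ?_⟩
  rw [← muN_eq hm (by omega)]
  congr 1
  -- parameters
  obtain ⟨e, he⟩ : ∃ e, e = (d + 2) / 3 := ⟨_, rfl⟩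
  obtain ⟨k, hk⟩ : ∃ k, k = d - 2 * e := ⟨_, rfl⟩
  have hdek : 2 * e + k = d := by omega
  have hHard : Hard K m d (m * e + k * ((m + 1) / 2)) := by
    rw [← hdek]
    rcases finite_or_infinite K with hfin | hinf
    · exact hard_finite K (by omega) (by omega) (by omega)
    · exact hard_infinite K (by omega)
  -- the bound is attained
  have hmem : muN m d ∈ {n | ∀ U : Fin m → Fin (d + 1) → Submodule K (Fin d → K),
      (∀ j, IsCompleteFlag K d (U j)) →
        ∃ S : Finset (Fin d → K), S.card ≤ n ∧ ∀ j, Generates (S : Set (Fin d → K)) (U j)} := by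
    intro U hU
    have hV := fun j => exists_vflag (hU j)
    choose V hV1 hV2 using hV
    let V' : ℕ → ℕ → Submodule K (Fin d → K) :=
      fun j => if h : j < m then V ⟨j, h⟩ else V ⟨0, by omega⟩
    have eV : ∀ j : Fin m, V' j = V j := fun j => dif_pos j.2
    have hV' : ∀ j, j < m → VFlag d (V' j) := by
      intro j hj
      have h1 := hV1 ⟨j, hj⟩
      rw [← eV ⟨j, hj⟩] at h1
      exact h1
    suffices h : ∃ S : Finset (Fin d → K), S.card ≤ muN m d ∧
        ∀ j, j < m → CovFlag d (V' j) S by
      obtain ⟨S, h1, h2⟩ := h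
      refine ⟨S, h1, fun j => ?_⟩
      have h3 := h2 j j.2
      rw [eV j] at h3
      exact generates_of_cov (hV1 j) (hV2 j) h3
    by_cases h1 : m = 1
    · obtain ⟨S, a1, a2⟩ := cov_one (hV' 0 (by omega))
      refine ⟨S, ?_, ?_⟩
      · rw [muN, if_pos h1]; exact a1
      · intro j hj
        have : j = 0 := by omega
        subst this
        exact a2
    by_cases hev : Even m
    · obtain ⟨k', hk'⟩ := hev
      obtain ⟨S, a1, a2⟩ := cov_even (d := d) (U := V') k' 0 (fun j _ hj => hV' j (by omega))
      refine ⟨S, ?_, fun j hj => a2 j (by omega) (by omega)⟩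
      rw [muN, if_neg h1, if_pos ⟨k', hk'⟩]
      have : m / 2 = k' := by omega
      rw [this]; exact a1
    · rw [Nat.not_even_iff_odd] at hev
      obtain ⟨k', hk'⟩ := hev
      obtain ⟨k'', rfl⟩ : ∃ k'', k' = k'' + 1 := ⟨k' - 1, by omega⟩
      obtain ⟨S, a1, a2⟩ := cov_odd (d := d) (U := V') k'' (fun j hj => hV' j (by omega))
      refine ⟨S, ?_, fun j hj => a2 j (by omega)⟩
      rw [muN, if_neg h1, if_neg (by rw [Nat.not_even_iff_odd]; exact ⟨k'' + 1, hk'⟩)]
      have h2 : (m - 1) / 2 = k'' + 1 := by omega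
      have h3 : (k'' + 1) * d = k'' * d + d := by ring
      rw [h2, h3]
      omega
  apply le_antisymm (Nat.sInf_le hmem)
  -- the lower bound
  have hsInf := Nat.sInf_mem ⟨_, hmem⟩
  obtain ⟨U, hU1, hU2⟩ := hHard
  obtain ⟨S, hS1, hS2⟩ := hsInf U (fun j => isCompleteFlag_of_strictMono (hU1 j))
  refine le_trans ?_ hS1
  have hlev : ∀ j, ∀ i : Fin d, ∃ v ∈ S, v ∈ U j i.succ ∧ v ∉ U j i.castSucc :=
    fun j i => levels_of_generates (hU1 j) (hS2 j) i
  by_cases h1 : m = 1
  · rw [muN, if_pos h1]
    choose p hp1 hp2 hp3 using hlev ⟨0, by omega⟩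
    have hinj : Function.Injective p := by
      have key : ∀ i i' : Fin d, i < i' → p i ≠ p i' := by
        intro i i' hlt h
        apply hp3 i'
        rw [← h]
        exact (hU1 _).monotone (Fin.le_def.2 (by
          have := Fin.lt_def.1 hlt
          simp only [Fin.val_succ, Fin.val_castSucc]
          omega)) (hp2 i)
      intro i i' h
      by_contra hne
      rcases lt_or_gt_of_ne hne with hlt | hlt
      · exact key i i' hlt h
      · exact key i' i hlt h.symm
    calc d = (Finset.univ : Finset (Fin d)).card := by simp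
      _ = (Finset.univ.image p).card := (Finset.card_image_of_injective _ hinj).symm
      _ ≤ S.card := Finset.card_le_card (fun v hv => by
          obtain ⟨i, _, rfl⟩ := Finset.mem_image.1 hv
          exact hp1 i)
  · refine le_trans ?_ (hU2 S hlev)
    by_cases hev : Even m
    · rw [muN, if_neg h1, if_pos hev]
      obtain ⟨k', hk'⟩ := hev
      have e1 : m / 2 = k' := by omega
      have e2 : (m + 1) / 2 = k' := by omega
      rw [e1, e2, ← hdek, hk']
      apply le_of_eq
      ring
    · rw [muN, if_neg h1, if_neg hev]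
      rw [Nat.not_even_iff_odd] at hev
      obtain ⟨k', hk'⟩ := hev
      have e1 : (m - 1) / 2 = k' := by omega
      have e2 : (m + 1) / 2 = k' + 1 := by omega
      have e3 : 2 * d / 3 = e + k := by omega
      rw [e1, e2, e3, ← hdek, hk']
      apply le_of_eq
      ring

end Pool.Agent.Results.MP_7b57dc_co.AllFields
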